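import Pool.Agent.R595.Kunen

/-!
# The Rudin-Keisler and the Comfort orders are not isomorphic
-/

set_option autoImplicit false

universe w

namespace Pool.Agent.Results.MP_6ed562_lc.NotIsomorphic

open Filter Set Topology
open Pool.Agent.R595

/-- `u ≤_RK v`: some map `f : ω → ω` sends `v` to `u`. -/
def RK (u v : Ultrafilter ℕ) : Prop := ∃ f : ℕ → ℕ, v.map f = u

/-- `X` is `u`-compact: every sequence has a `u`-limit. -/
def UCompact (u : Ultrafilter ℕ) (X : Type w) [TopologicalSpace X] : Prop :=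
  ∀ x : ℕ → X, ∃ y : X, ∀ U ∈ 𝓝 y, {n | x n ∈ U} ∈ u

/-- The Comfort preorder: every `v`-compact Tychonoff space is `u`-compact. -/
def Comfort (u v : Ultrafilter ℕ) : Prop :=
  ∀ (X : Type w) [TopologicalSpace X] [T35Space X], UCompact v X → UCompact u X

theorem comfort_of_rk {u v : Ultrafilter ℕ} (h : RK u v) : Comfort.{w} u v := by
  rintro X _ _ hX x
  obtain ⟨f, rfl⟩ := h
  obtain ⟨y, hy⟩ := hX (x ∘ f)
  exact ⟨y, fun U hU => hy U hU⟩

theorem comfort_tens {a b c : Ultrafilter ℕ} (ha : Comfort.{w} a c) (hb : Comfort.{w} b c) :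
    Comfort.{w} (WP.tens a b) c := by
  rintro X _ _ hX x
  choose y hy using fun m => hb X hX (fun n => x (Nat.pair m n))
  obtain ⟨z, hz⟩ := ha X hX y
  refine ⟨z, fun U hU => ?_⟩
  obtain ⟨V, hVU, hV, hzV⟩ := mem_nhds_iff.1 hU
  have h1 := hz V (hV.mem_nhds hzV)
  change {m | {n | x n ∈ U} ∈ b.map (Nat.pair m)} ∈ a
  refine Filter.mem_of_superset h1 fun m hm => ?_
  refine Filter.mem_of_superset (hy m V (hV.mem_nhds hm)) fun n hn => ?_
  exact hVU hn

theorem rk_refl (a : Ultrafilter ℕ) : RK a a := WP.rk_refl a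

theorem rk_trans {a b c : Ultrafilter ℕ} (h1 : RK a b) (h2 : RK b c) : RK a c :=
  WP.rk_trans h1 h2

theorem comfort_refl (a : Ultrafilter ℕ) : Comfort.{w} a a := fun _ _ _ h => h

theorem comfort_trans {a b c : Ultrafilter ℕ} (h1 : Comfort.{w} a b) (h2 : Comfort.{w} b c) :
    Comfort.{w} a c := fun X _ _ h => h1 X (h2 X h)

/-- No map from ultrafilters to ultrafilters induces an isomorphism of the two associated
partial orders: there is no relation `Φ` matching the classes. -/
theorem no_iso_aux (Φ : Ultrafilter ℕ → Ultrafilter ℕ)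
    (h : ∀ a b, RK a b ↔ Comfort.{w} (Φ a) (Φ b))
    (hs : ∀ c, ∃ a, Comfort.{w} (Φ a) c ∧ Comfort.{w} c (Φ a)) : False := by
  obtain ⟨u, v, hu, hv, huv, hvu⟩ := Kun.exists_weakP_pair
  obtain ⟨s, hs1, hs2⟩ := hs (WP.tens (Φ u) (Φ v))
  have h1 : RK u s := by
    rw [h]
    exact comfort_trans (comfort_of_rk (WP.rk_tens_left _ _)) hs2
  have h2 : RK v s := by
    rw [h]
    exact comfort_trans (comfort_of_rk (WP.rk_tens_right _ _)) hs2
  have h3 : ∀ t, RK u t → RK v t → RK s t := by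
    intro t htu htv
    rw [h] at htu htv ⊢
    exact comfort_trans hs1 (comfort_tens htu htv)
  exact WP.no_sup hu hv huv hvu h1 h2 (h3 _ (WP.rk_tens_left _ _) (WP.rk_tens_right _ _))
    (h3 _ (WP.rk_tens_right _ _) (WP.rk_tens_left _ _))

/-- The Rudin-Keisler preorder on `βω`, as a type with its preorder. -/
structure RKOrd where
  /-- the underlying ultrafilter -/
  pt : Ultrafilter ℕ

/-- The Comfort preorder on `βω`, as a type with its preorder. -/
structure COrd where
  /-- the underlying ultrafilter -/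
  pt : Ultrafilter ℕ

instance : Preorder RKOrd where
  le a b := RK a.pt b.pt
  le_refl a := rk_refl a.pt
  le_trans _ _ _ h1 h2 := rk_trans h1 h2

/-- The Comfort preorder (Tychonoff spaces in the universe `w`). -/
@[reducible] def comfortPreorder : Preorder COrd where
  le a b := Comfort.{w} a.pt b.pt
  le_refl a := comfort_refl a.pt
  le_trans _ _ _ h1 h2 := comfort_trans h1 h2

/-- **Answer to Q1 (no).** The partial orders `βω/≡_RK` and `βω/≡_C` are not order-isomorphic. -/
theorem result :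
    letI := comfortPreorder.{w}
    IsEmpty (Antisymmetrization RKOrd (· ≤ ·) ≃o Antisymmetrization COrd (· ≤ ·)) := by
  let := comfortPreorder.{w}
  refine ⟨fun e => ?_⟩
  refine no_iso_aux.{w}
    (fun a => (ofAntisymmetrization (· ≤ ·) (e (toAntisymmetrization (· ≤ ·) ⟨a⟩))).pt) ?_ ?_
  · intro a b
    have h1 : (⟨a⟩ : RKOrd) ≤ ⟨b⟩ ↔ toAntisymmetrization (· ≤ ·) (⟨a⟩ : RKOrd) ≤
        toAntisymmetrization (· ≤ ·) (⟨b⟩ : RKOrd) := toAntisymmetrization_le_toAntisymmetrization_iff.symm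
    have h2 := e.le_iff_le (x := toAntisymmetrization (· ≤ ·) (⟨a⟩ : RKOrd))
      (y := toAntisymmetrization (· ≤ ·) (⟨b⟩ : RKOrd))
    have h3 : ofAntisymmetrization (· ≤ ·) (e (toAntisymmetrization (· ≤ ·) ⟨a⟩)) ≤
        ofAntisymmetrization (· ≤ ·) (e (toAntisymmetrization (· ≤ ·) ⟨b⟩)) ↔
        e (toAntisymmetrization (· ≤ ·) ⟨a⟩) ≤ e (toAntisymmetrization (· ≤ ·) ⟨b⟩) :=
      ofAntisymmetrization_le_ofAntisymmetrization_iff
    exact (h1.trans h2.symm).trans h3.symm
  · intro c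
    refine ⟨(ofAntisymmetrization (· ≤ ·) (e.symm (toAntisymmetrization (· ≤ ·) ⟨c⟩))).pt, ?_⟩
    have h1 : e (toAntisymmetrization (· ≤ ·) (ofAntisymmetrization (· ≤ ·)
        (e.symm (toAntisymmetrization (· ≤ ·) (⟨c⟩ : COrd))))) =
        toAntisymmetrization (· ≤ ·) (⟨c⟩ : COrd) := by
      rw [toAntisymmetrization_ofAntisymmetrization]
      simp
    have h2 : toAntisymmetrization (· ≤ ·) (ofAntisymmetrization (· ≤ ·)
        (e (toAntisymmetrization (· ≤ ·) (ofAntisymmetrization (· ≤ ·)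
        (e.symm (toAntisymmetrization (· ≤ ·) (⟨c⟩ : COrd))))))) =
        toAntisymmetrization (· ≤ ·) (⟨c⟩ : COrd) := by
      rw [toAntisymmetrization_ofAntisymmetrization, h1]
    constructor
    · exact toAntisymmetrization_le_toAntisymmetrization_iff.1 h2.le
    · exact toAntisymmetrization_le_toAntisymmetrization_iff.1 h2.ge

end Pool.Agent.Results.MP_6ed562_lc.NotIsomorphic
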